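import Mathlib
import Pool.Agent.W484.CK.GroupMain

/-!
# Unramified cohomology of products with almost all abelian varieties

Let `g i` (`i` in a finite set `I`) be positive integers, `r` an integer smaller than all the `g i`
and `E` a number field.  For a prime power `q` let `S i` be the set of the characteristic
polynomials of Frobenius of the ordinary abelian varieties of dimension `g i` over the field with
`q` elements, or of all abelian varieties of dimension `g i`, or any set in between.  By Weil, Honda
and Tate its elements correspond to the isogeny classes, the first set contains `ordinaryWeilPolys q
(g i)`, and the second one is contained in `weilPolys q (g i)`.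

For all families `f i` in `S i` with the exception of a proportion `O (q ^ (-1 / 6) log q)`, the
constant depending only on `g` and `E`, the following holds for all `s > 0`, `Q = q ^ s`, all
abelian varieties `A` over the field with `Q` elements which are isogenous to products of powers of
abelian varieties coming from the field with `q` elements, with characteristic polynomials `f i`,
and **all** smooth projective varieties `Z` over the field with `Q` elements such that

* the eigenvalues of Frobenius on the cohomology of `Z` and their conjugates generate a group of rank
  at most `r` modulo the group of the numbers with a power in `E`;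
* homologically trivial self-correspondences of degree zero of `A × Z` are nilpotent, for instance
  the motive of `Z` is finite-dimensional in the sense of Kimura and O'Sullivan. This is known for
  all varieties dominated by products of curves, and for their products with `A`.

Let `T` be a theory with values in abelian groups on which the cycles with integral coefficients
act, and such that the Frobenius endomorphism of `A × Z` acts on `T^i (A × Z)` as multiplication by
`Q ^ i` (`i ≥ 0`). Then `T^i (A × Z)` has finite exponent if and only if all the
`T^(i - deg j) (Z)` have, where the `deg j` are the degrees of certain products of divisors on `A`.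

The main example are the groups `T^i (X) = H^(i-n)(X, ℋ^(i+1)(ℚ/ℤ(i)))` of Bloch and Ogus,
for fixed `n`. They are zero for `i < n`, and for `i = n` one gets the unramified cohomology
groups `H^(n+1)_nr(X, ℚ/ℤ(n))`. So the group `H^(n+1)_nr(A × Z, ℚ/ℤ(n))` has finite exponent if and
only if `H^(n+1)_nr(Z, ℚ/ℤ(n))` has. For `n = 2` it follows that **`H^3_nr(A × Z, ℚ/ℤ(2))` is finite if
and only if `H^3_nr(Z, ℚ/ℤ(2))` is finite**, since groups `H^3_nr(X, ℚ/ℤ(2))` of finite exponent
are finite: by the theorem of Merkurjev and Suslin there is an exact sequence
`H^3(X, ℚ/ℤ(2)) → H^3_nr(X, ℚ/ℤ(2)) → CH^2(X) ⊗ ℚ/ℤ → H^4(X, ℚ/ℤ(2))`, the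
group `H^3(X, ℚ/ℤ(2))` is finite, and `H^4(X, ℚ/ℤ(2))` is of cofinite type; if the kernel `N` of the
last map is killed by `m`, the divisible group `V = CH^2(X) ⊗ ℚ/ℤ` is a quotient of `V / N` by the
multiplication by `m`, so `V` is of cofinite type, and `N` is finite. For example,
`H^3_nr(A × Z, ℚ/ℤ(2))` is finite for all surfaces `Z` dominated by products of curves which satisfy
the condition on the eigenvalues, as then `H^3_nr(Z, ℚ/ℤ(2)) = 0` (Colliot-Thelene, Sansuc, Soule).

For `r = 0` the assumption on the eigenvalues is: the eigenvalues of Frobenius and their conjugates
have powers in `E`.  If for instance `Z` is any given variety over the field with `q'` elements, one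
can take for `E` the field generated by the eigenvalues of Frobenius and their conjugates, and
applies the theorem to the powers `q` of `q'`.

The framework (`TheoryData`, `IsChow`, `IsWeil`) is the one of helper492: the Chow groups `C` with
their pull-backs, push-forwards and products, and a Weil cohomology theory `H` with coefficients in
an algebraically closed field `K`, on a class `𝒱` of smooth proper varieties over `k`.

The idea of the proof: by a sieve (helper521), which only uses the primes that split completely in
the Galois closure of `E` - these have positive density by the theorem of Chebotarev, formalized by
helper401 - almost all families are such that each pair `α`, `q / α` of roots can be exchanged by a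
Galois automorphism which fixes all the other roots of all the `f i` and also all elements of `E`.
It follows that the generalized eigenvectors of Frobenius in the cohomology of `A × Z` for the
eigenvalues `Q ^ i` are sums of products of classes of products of divisors on `A` and of classes on
`Z`. Let `p` be the projector given by the `D j` and dual classes, and `P` a polynomial killing all
the other eigenvalues and with `P (Q ^ i) ≠ 0`. The correspondence `(1 - p) P (F)` is homologically
trivial, hence nilpotent. We apply it to the sequences in `T^i (A × Z)`, tensored with the rational
numbers: there `F` is the multiplication by `Q ^ i`, and it follows that `p` is the identity. (The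
idea to play the eigenvalues of Frobenius off against nilpotence is due to Soule, Geisser and Kahn.)
-/

set_option autoImplicit false

namespace Pool.Agent.Results.MP_859dd5_ag.AlmostAllAbelianFactors

open Polynomial Pool.Agent.W521.Descent Pool.Agent.W521.Count Pool.Agent.W484.TB
  Pool.Agent.W484.CK

/-- `weilPolys q g` is the set of monic integral polynomials of degree `2 g` with constant term
`q ^ g` and all roots of absolute value `√q`; `ordinaryWeilPolys q g` is the subset of those
whose coefficient of index `g` is prime to `q`. -/
theorem result {I : Type} [Fintype I] (g : I → ℕ) (r : ℕ) (hr : ∀ i, r < g i)
    (E : IntermediateField ℚ ℂ) [FiniteDimensional ℚ E] :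
    ∃ C : ℝ, ∀ q : ℕ, IsPrimePow q → ∀ S : I → Set ℤ[X],
      (∀ i, ordinaryWeilPolys q (g i) ⊆ S i ∧ S i ⊆ weilPolys q (g i)) →
      (∀ i, (S i).Finite ∧ (S i).Nonempty) ∧
      ({f : I → ℤ[X] | (∀ i, f i ∈ S i) ∧ ¬ GroupForRankOver E q r f}.ncard : ℝ) ≤
        C * (Real.log q * (q : ℝ) ^ (-(1 / 6) : ℝ)) * ∏ i, ((S i).ncard : ℝ) :=
  count_of_goodU (splitPrimes E) (dense_splitPrimes E) g
    (fun i => (Nat.zero_le r).trans_lt (hr i)) (fun q f => GroupForRankOver E q r f)
    fun _ hq x hx => groupForRankOver_of_good g E hq.one_lt r hr x hx

end Pool.Agent.Results.MP_859dd5_ag.AlmostAllAbelianFactors
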