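import Pool.Agent.W495.FM.Etale

/-!
# Finiteness of the unramified `H^3` of varieties generated by small abelian varieties

An abelian variety over the field with `p ^ a` elements is modelled by `RedAV` (Honda, Tate): a
finite product of CM types `(E i, Φ i)` with Weil numbers `π i ∈ E i` that satisfy the formula of
Shimura and Taniyama; its cohomology of degree `n` consists of the alternating `n`-forms on the Tate
module `Ω ⊗ H_1`, on which the Frobenius endomorphism acts by `π`.

`IsSmall Y`: the dimension of `Y` is at most four; or `Y` is (over an algebraic closure) isogenous to
the product of a power of a simple abelian variety of dimension at most five and of a supersingular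
abelian variety; or `Y` is a product of abelian varieties of dimension at most three, with a condition
on the Galois closures of their CM fields. The Newton polygon is arbitrary.

The group `H^3_nr(X, ℚ/ℤ(2))` is finite for all smooth projective varieties `X` over a finite field in
the class generated by these abelian varieties (by motivic direct summands of sums of twists, and
two-out-of-three for closed subschemes and their complements).
-/

namespace Pool.Agent.Results.MP_859dd5_ag.GeneratedBySmallAbelian

open Pool.Agent.W495.TA Pool.Agent.W495.FM

/-- The group `N X = H^3_nr(X, ℚ/ℤ(2))` is finite for all smooth projective varieties `X` in the class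
generated by small abelian varieties. -/
theorem result (p : ℕ) [Fact p.Prime] (ν : PadicAlgCl p ≃+* ℂ) (Ω : Type) [Field Ω]
    [IsAlgClosed Ω] [CharZero Ω] (V : Type) (T : Homology Ω V) (hT : IsHomology T)
    (L : EtaleMotivic V) (P : V → ℕ → Prop) (hL : IsEtaleMotivic T L P) (N : V → Type)
    [∀ X, AddCommGroup (N X)] (hN : IsUnramified L P N) (X : V) (d : ℕ) (hP : P X d)
    (hX : Generated T (IsSmallAbelian p ν T) X) : Finite (N X) :=
  unramified_finite hT hL hN hP hX

end Pool.Agent.Results.MP_859dd5_ag.GeneratedBySmallAbelian
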